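import Pool.Agent.W_30d1b9f_h31.Api

/-!
# MP_30d1b9_co, the game `CN(8,4)`: positions as seven numbers (stack `2` is empty)

Stacks `0..7`: `a, x, (0), b, l, m, D, r`.
-/

namespace Pool.Agent.W_30d1b9e_h8

open Pool.Agent.W_30d1b9_h50 Pool.Agent.W_30d1b9s_h71 Pool.Agent.W_30d1b9f_h31

/-- the eight stacks -/
def vc (a x y b l m D r : ℕ) (v : ℕ) : ℕ :=
  if v = 0 then a else if v = 1 then x else if v = 2 then y else if v = 3 then b
  else if v = 4 then l else if v = 5 then m else if v = 6 then D else r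

/-- `(a, x, 0, b, l, m, D, r)` is a P-position -/
def Q (a x b l m D r : ℕ) : Prop := PP 8 3 (vc a x 0 b l m D r)

theorem vc0 (a x y b l m D r : ℕ) : vc a x y b l m D r 0 = a := rfl
theorem vc1 (a x y b l m D r : ℕ) : vc a x y b l m D r 1 = x := rfl
theorem vc2 (a x y b l m D r : ℕ) : vc a x y b l m D r 2 = y := rfl
theorem vc3 (a x y b l m D r : ℕ) : vc a x y b l m D r 3 = b := rfl
theorem vc4 (a x y b l m D r : ℕ) : vc a x y b l m D r 4 = l := rfl
theorem vc5 (a x y b l m D r : ℕ) : vc a x y b l m D r 5 = m := rfl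
theorem vc6 (a x y b l m D r : ℕ) : vc a x y b l m D r 6 = D := rfl
theorem vc7 (a x y b l m D r : ℕ) : vc a x y b l m D r 7 = r := rfl

theorem lt8 {P : ℕ → Prop} (h0 : P 0) (h1 : P 1) (h2 : P 2) (h3 : P 3) (h4 : P 4) (h5 : P 5)
    (h6 : P 6) (h7 : P 7) : ∀ v < 8, P v := by
  intro v hv
  interval_cases v <;> assumption

/-- the changed stacks are in a window -/
def Wd (a x b l m D r a' x' b' l' m' D' r' : ℕ) : Prop :=
  (l' = l ∧ m' = m ∧ D' = D ∧ r' = r) ∨ (a' = a ∧ m' = m ∧ D' = D ∧ r' = r) ∨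
  (a' = a ∧ x' = x ∧ r' = r) ∨ (a' = a ∧ x' = x ∧ b' = b) ∨
  (x' = x ∧ b' = b ∧ l' = l) ∨ (b' = b ∧ l' = l ∧ m' = m)

/-- every stack does not grow -/
def Le (a x b l m D r a' x' b' l' m' D' r' : ℕ) : Prop :=
  a' ≤ a ∧ x' ≤ x ∧ b' ≤ b ∧ l' ≤ l ∧ m' ≤ m ∧ D' ≤ D ∧ r' ≤ r

theorem noP {a x y b l m D r a' x' y' b' l' m' D' r' : ℕ} (s : ℕ) (hs : s < 8)
    (h : PP 8 3 (vc a x y b l m D r)) (h' : PP 8 3 (vc a' x' y' b' l' m' D' r'))
    (hle : a' ≤ a ∧ x' ≤ x ∧ y' ≤ y ∧ b' ≤ b ∧ l' ≤ l ∧ m' ≤ m ∧ D' ≤ D ∧ r' ≤ r)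
    (hw : (¬ InW 8 3 s 0 → a' = a) ∧ (¬ InW 8 3 s 1 → x' = x) ∧ (¬ InW 8 3 s 2 → y' = y) ∧
      (¬ InW 8 3 s 3 → b' = b) ∧ (¬ InW 8 3 s 4 → l' = l) ∧ (¬ InW 8 3 s 5 → m' = m) ∧
      (¬ InW 8 3 s 6 → D' = D) ∧ (¬ InW 8 3 s 7 → r' = r)) :
    a' = a ∧ x' = x ∧ y' = y ∧ b' = b ∧ l' = l ∧ m' = m ∧ D' = D ∧ r' = r := by
  have h1 := noPP (by norm_num) h h' (lt8 (by simpa only [vc0] using hle.1)
    (by simpa only [vc1] using hle.2.1) (by simpa only [vc2] using hle.2.2.1)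
    (by simpa only [vc3] using hle.2.2.2.1) (by simpa only [vc4] using hle.2.2.2.2.1)
    (by simpa only [vc5] using hle.2.2.2.2.2.1) (by simpa only [vc6] using hle.2.2.2.2.2.2.1)
    (by simpa only [vc7] using hle.2.2.2.2.2.2.2)) s hs (lt8 (by simpa only [vc0] using hw.1)
    (by simpa only [vc1] using hw.2.1) (by simpa only [vc2] using hw.2.2.1)
    (by simpa only [vc3] using hw.2.2.2.1) (by simpa only [vc4] using hw.2.2.2.2.1)
    (by simpa only [vc5] using hw.2.2.2.2.2.1) (by simpa only [vc6] using hw.2.2.2.2.2.2.1)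
    (by simpa only [vc7] using hw.2.2.2.2.2.2.2))
  exact ⟨h1 0 (by norm_num), h1 1 (by norm_num), h1 2 (by norm_num), h1 3 (by norm_num),
    h1 4 (by norm_num), h1 5 (by norm_num), h1 6 (by norm_num), h1 7 (by norm_num)⟩

theorem noQ {a x b l m D r a' x' b' l' m' D' r' : ℕ} (h : Q a x b l m D r)
    (h' : Q a' x' b' l' m' D' r') (hle : Le a x b l m D r a' x' b' l' m' D' r')
    (hw : Wd a x b l m D r a' x' b' l' m' D' r') :
    a' = a ∧ x' = x ∧ b' = b ∧ l' = l ∧ m' = m ∧ D' = D ∧ r' = r := by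
  obtain ⟨l1, l2, l3, l4, l5, l6, l7⟩ := hle
  have key : ∀ s < 8, ((¬ InW 8 3 s 0 → a' = a) ∧ (¬ InW 8 3 s 1 → x' = x) ∧
      (¬ InW 8 3 s 2 → 0 = 0) ∧
      (¬ InW 8 3 s 3 → b' = b) ∧ (¬ InW 8 3 s 4 → l' = l) ∧ (¬ InW 8 3 s 5 → m' = m) ∧
      (¬ InW 8 3 s 6 → D' = D) ∧ (¬ InW 8 3 s 7 → r' = r)) →
      a' = a ∧ x' = x ∧ b' = b ∧ l' = l ∧ m' = m ∧ D' = D ∧ r' = r := by
    intro s hs hw'
    obtain ⟨h1, h2, -, h3⟩ := noP s hs h h' ⟨l1, l2, le_rfl, l3, l4, l5, l6, l7⟩ hw'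
    exact ⟨h1, h2, h3⟩
  unfold InW at key
  rcases hw with hw | hw | hw | hw | hw | hw
  · exact key 0 (by norm_num) (by omega)
  · exact key 1 (by norm_num) (by omega)
  · exact key 3 (by norm_num) (by omega)
  · exact key 4 (by norm_num) (by omega)
  · exact key 5 (by norm_num) (by omega)
  · exact key 6 (by norm_num) (by omega)

theorem exQ {a x b l m D r : ℕ} (h : ¬ Q a x b l m D r) :
    ∃ a' x' b' l' m' D' r', Q a' x' b' l' m' D' r' ∧ Le a x b l m D r a' x' b' l' m' D' r' ∧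
      Wd a x b l m D r a' x' b' l' m' D' r' ∧
      a' + x' + b' + l' + m' + D' + r' < a + x + b + l + m + D + r := by
  obtain ⟨g, s, hs, hg, hle, hW, v, hv, hlt⟩ := exP (n := 8) (c := 3) (by norm_num) h
  have e0 := hle 0 (by norm_num)
  have e1 := hle 1 (by norm_num)
  have e2 := hle 2 (by norm_num)
  have e3 := hle 3 (by norm_num)
  have e4 := hle 4 (by norm_num)
  have e5 := hle 5 (by norm_num)
  have e6 := hle 6 (by norm_num)
  have e7 := hle 7 (by norm_num)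
  rw [vc0] at e0
  rw [vc1] at e1
  rw [vc2] at e2
  rw [vc3] at e3
  rw [vc4] at e4
  rw [vc5] at e5
  rw [vc6] at e6
  rw [vc7] at e7
  have w0 := hW 0 (by norm_num)
  have w1 := hW 1 (by norm_num)
  have w3 := hW 3 (by norm_num)
  have w4 := hW 4 (by norm_num)
  have w5 := hW 5 (by norm_num)
  have w6 := hW 6 (by norm_num)
  have w7 := hW 7 (by norm_num)
  rw [vc0] at w0
  rw [vc1] at w1
  rw [vc3] at w3
  rw [vc4] at w4
  rw [vc5] at w5
  rw [vc6] at w6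
  rw [vc7] at w7
  unfold InW at w0 w1 w3 w4 w5 w6 w7
  refine ⟨g 0, g 1, g 3, g 4, g 5, g 6, g 7, ?_, ?_, ?_, ?_⟩
  · refine PP_congr (lt8 ?_ ?_ ?_ ?_ ?_ ?_ ?_ ?_) hg
    · rw [vc0]
    · rw [vc1]
    · rw [vc2]
      omega
    · rw [vc3]
    · rw [vc4]
    · rw [vc5]
    · rw [vc6]
    · rw [vc7]
  · unfold Le
    omega
  · unfold Wd
    have hs' : s = 0 ∨ s = 1 ∨ s = 2 ∨ s = 3 ∨ s = 4 ∨ s = 5 ∨ s = 6 ∨ s = 7 := by omega
    rcases hs' with h | h | h | h | h | h | h | h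
    · subst h; left; omega
    · subst h; right; left; omega
    · subst h; right; right; left; omega
    · subst h; right; right; left; omega
    · subst h; right; right; right; left; omega
    · subst h; right; right; right; right; left; omega
    · subst h; right; right; right; right; right; omega
    · subst h; right; right; right; right; right; omega
  · have hv' : v = 0 ∨ v = 1 ∨ v = 2 ∨ v = 3 ∨ v = 4 ∨ v = 5 ∨ v = 6 ∨ v = 7 := by omega
    rcases hv' with h | h | h | h | h | h | h | h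
    · subst h; rw [vc0] at hlt; omega
    · subst h; rw [vc1] at hlt; omega
    · subst h; rw [vc2] at hlt; omega
    · subst h; rw [vc3] at hlt; omega
    · subst h; rw [vc4] at hlt; omega
    · subst h; rw [vc5] at hlt; omega
    · subst h; rw [vc6] at hlt; omega
    · subst h; rw [vc7] at hlt; omega

end Pool.Agent.W_30d1b9e_h8
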