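import Pool.Agent.W_30d1b9e_h8.Api8

/-!
# MP_30d1b9_co, the game `CN(8,4)`: bounds, level zero
-/

namespace Pool.Agent.W_30d1b9e_h8

open Pool.Agent.W_30d1b9_h50 Pool.Agent.W_30d1b9s_h71 Pool.Agent.W_30d1b9f_h31

theorem F1 {a x b l m D r : ℕ} (h : Q a x b l m D r) : a ≤ l + m + D := by
  have h1 := bound (n := 8) (c := 3) (by norm_num) h 0 (by norm_num)
    (fun v => v = 1 ∨ v = 2 ∨ v = 3 ∨ v = 7) (by omega)
    (fun s hs hs0 => by
      unfold InW at *
      rcases Nat.lt_or_ge 3 s with h1 | h1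
      · exact ⟨5, by omega, by omega, fun v hv h2 h3 => by omega⟩
      · exact ⟨0, by omega, by omega, fun v hv h2 h3 => by omega⟩)
  rw [vc0] at h1
  refine h1.trans (le_of_eq ?_)
  have e1 : (Finset.range 8).filter (fun v => v ≠ 0 ∧ ¬ (v = 1 ∨ v = 2 ∨ v = 3 ∨ v = 7)) =
      {4, 5, 6} := by decide
  rw [e1]
  rw [Finset.sum_insert (by decide), Finset.sum_insert (by decide), Finset.sum_singleton, vc4,
    vc5, vc6]
  ring

theorem F2 {a x b l m D r : ℕ} (h : Q a x b l m D r) : b ≤ m + D + r := by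
  have h1 := bound (n := 8) (c := 3) (by norm_num) h 3 (by norm_num)
    (fun v => v = 0 ∨ v = 1 ∨ v = 2 ∨ v = 4) (by omega)
    (fun s hs hs0 => by
      unfold InW at *
      rcases Nat.lt_or_ge 4 s with h1 | h1
      · exact ⟨0, by omega, by omega, fun v hv h2 h3 => by omega⟩
      · exact ⟨3, by omega, by omega, fun v hv h2 h3 => by omega⟩)
  rw [vc3] at h1
  refine h1.trans (le_of_eq ?_)
  have e1 : (Finset.range 8).filter (fun v => v ≠ 3 ∧ ¬ (v = 0 ∨ v = 1 ∨ v = 2 ∨ v = 4)) =
      {5, 6, 7} := by decide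
  rw [e1]
  rw [Finset.sum_insert (by decide), Finset.sum_insert (by decide), Finset.sum_singleton, vc5,
    vc6, vc7]
  ring

theorem F3 {a x b l m D r : ℕ} (h : Q a x b l m D r) : D ≤ b + x := by
  have h1 := bound (n := 8) (c := 3) (by norm_num) h 6 (by norm_num)
    (fun v => v = 0 ∨ v = 4 ∨ v = 5 ∨ v = 7) (by omega)
    (fun s hs hs0 => by
      unfold InW at *
      rcases Nat.lt_or_ge 3 s with h1 | h1
      · exact ⟨6, by omega, by omega, fun v hv h2 h3 => by omega⟩
      rcases Nat.eq_zero_or_pos s with h4 | h4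
      · exact ⟨6, by omega, by omega, fun v hv h2 h3 => by omega⟩
      · exact ⟨3, by omega, by omega, fun v hv h2 h3 => by omega⟩)
  rw [vc6] at h1
  refine h1.trans (le_of_eq ?_)
  have e1 : (Finset.range 8).filter (fun v => v ≠ 6 ∧ ¬ (v = 0 ∨ v = 4 ∨ v = 5 ∨ v = 7)) =
      {1, 2, 3} := by decide
  rw [e1]
  rw [Finset.sum_insert (by decide), Finset.sum_insert (by decide), Finset.sum_singleton, vc1,
    vc2, vc3]
  ring

theorem F4 {a x b l m D r : ℕ} (h : Q a x b l m D r) : l ≤ a + x + r := by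
  have h1 := bound (n := 8) (c := 3) (by norm_num) h 4 (by norm_num)
    (fun v => v = 3 ∨ v = 5 ∨ v = 6) (by omega)
    (fun s hs hs0 => by
      unfold InW at *
      rcases Nat.lt_or_ge 4 s with h1 | h1
      · exact ⟨3, by omega, by omega, fun v hv h2 h3 => by omega⟩
      · exact ⟨1, by omega, by omega, fun v hv h2 h3 => by omega⟩)
  rw [vc4] at h1
  refine h1.trans (le_of_eq ?_)
  have e1 : (Finset.range 8).filter (fun v => v ≠ 4 ∧ ¬ (v = 3 ∨ v = 5 ∨ v = 6)) =
      {0, 1, 2, 7} := by decide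
  rw [e1]
  rw [Finset.sum_insert (by decide), Finset.sum_insert (by decide), Finset.sum_insert (by decide),
    Finset.sum_singleton, vc0, vc1, vc2, vc7]
  ring

theorem move_neg {n k : ℕ} [NeZero n] {p q : ZMod n → ℕ} (a : ZMod n)
    (h : Move n k (fun x => p (a - x)) q) : Move n k p fun x => q (a - x) := by
  obtain ⟨i, h1, h2, h3⟩ := h
  rcases Nat.eq_zero_or_pos k with hk | hk
  · exfalso
    apply h3
    funext j
    exact h1 j fun ⟨t, ht, _⟩ => by omega
  refine ⟨a - i - ((k - 1 : ℕ) : ZMod n), fun j hj => ?_, fun j => ?_, fun he => ?_⟩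
  · have h4 : a - j ∉ window n k i := by
      rintro ⟨t, ht, hjt⟩
      refine hj ⟨k - 1 - t, by omega, ?_⟩
      have h5 : ((k - 1 - t : ℕ) : ZMod n) = ((k - 1 : ℕ) : ZMod n) - (t : ZMod n) :=
        Nat.cast_sub (by omega)
      rw [h5]
      linear_combination - hjt
    have h5 := h1 _ h4
    beta_reduce at h5
    rw [sub_sub_cancel] at h5
    exact h5
  · have h5 := h2 (a - j)
    beta_reduce at h5
    rw [sub_sub_cancel] at h5
    exact h5
  · apply h3
    funext x
    have h5 := congrFun he (a - x)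
    beta_reduce at h5
    rw [sub_sub_cancel] at h5
    exact h5

theorem isP_neg_aux {n k : ℕ} [NeZero n] (N : ℕ) : ∀ (p : ZMod n → ℕ) (a : ZMod n),
    ∑ i, p i ≤ N → IsP n k p → IsP n k fun x => p (a - x) := by
  induction N with
  | zero =>
    intro p a hN hp
    rw [isP_iff]
    intro q hq _
    have h1 := (move_neg a hq).lt
    omega
  | succ N ih =>
    intro p a hN hp
    rw [isP_iff]
    intro q hq hqP
    have h1 := move_neg a hq
    refine (isP_iff _).1 hp _ h1 (ih q a ?_ hqP)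
    have h2 := h1.lt
    have h3 : ∑ i, q (a - i) = ∑ i, q i := by
      refine Finset.sum_bij (fun x _ => a - x) (fun _ _ => Finset.mem_univ _)
        (fun x _ y _ h => ?_) (fun y _ => ⟨a - y, Finset.mem_univ _, sub_sub_cancel _ _⟩)
        (fun _ _ => rfl)
      exact sub_right_injective h
    omega

/-- reflections preserve P-positions -/
theorem isP_neg {n k : ℕ} [NeZero n] {p : ZMod n → ℕ} (a : ZMod n) (hp : IsP n k p) :
    IsP n k fun x => p (a - x) :=
  isP_neg_aux _ p a le_rfl hp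

theorem zeroQ {l m D r : ℕ} (h : r ≤ l) : Q (l + m + D) 0 (m + D + r) l m D r := by
  have h1 : PP 8 3 (vc (m + D + r) 0 0 (l + m + D) r D m l) := by
    refine zero_isP (n := 8) (c := 3) (e := 2) le_rfl (by norm_num) rfl _ (fun v h1 h2 => ?_)
      ?_ ?_ ?_
    · interval_cases v
      · rfl
      · rfl
    · rw [show Finset.Ico (3 + 2) (2 * 3 + 1) = {5, 6} by decide,
        show Finset.Ico (3 + 1) (3 + 2) = {4} by decide, Finset.sum_insert (by decide),
        Finset.sum_singleton, Finset.sum_singleton, vc0, vc4, vc5, vc6]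
      ring
    · rw [show Finset.Ico (3 + 2) (2 * 3 + 1) = {5, 6} by decide,
        show Finset.Ico (2 * 3 + 1) (2 * 3 + 2) = {7} by decide, Finset.sum_insert (by decide),
        Finset.sum_singleton, Finset.sum_singleton, vc3, vc5, vc6, vc7]
      ring
    · rw [show Finset.Ico (3 + 1) (3 + 2) = {4} by decide, Finset.sum_singleton, vc4]
      exact h
  have h2 := isP_neg (3 : ZMod 8) h1
  unfold Q PP
  have e1 : (fun x : ZMod 8 => vc (l + m + D) 0 0 (m + D + r) l m D r x.val) =
      fun x : ZMod 8 => vc (m + D + r) 0 0 (l + m + D) r D m l (3 - x).val := by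
    funext x
    fin_cases x <;> rfl
  rw [e1]
  exact h2

theorem base {a b l m D r : ℕ} (h : r ≤ l) :
    Q a 0 b l m D r ↔ l + m + D = a + 0 ∧ m + D + r = b + 0 := by
  constructor
  · intro h1
    have h2 := F1 h1
    have h3 := F2 h1
    have h4 := noQ (zeroQ (l := l) (m := m) (D := D) (r := r) h) h1 (by unfold Le; omega)
      (by unfold Wd; omega)
    omega
  · rintro ⟨h1, h2⟩
    rw [add_zero] at h1 h2
    rw [← h1, ← h2]
    exact zeroQ h

end Pool.Agent.W_30d1b9e_h8
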