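import Pool.Agent.W_30d1b9e_h8.Bd8

/-!
# MP_30d1b9_co, the game `CN(8,4)`: all levels `(x, m, r)` for `l ≫ D ≫ x, m, r`
-/

namespace Pool.Agent.W_30d1b9e_h8

open Pool.Agent.W_30d1b9_h50 Pool.Agent.W_30d1b9s_h71 Pool.Agent.W_30d1b9f_h31

/-- the level `(x, m, r)` is known above the thresholds `K, Λ` -/
def St (x m r κ K : ℕ) (Λ : ℕ → ℕ) : Prop :=
  ∀ D l, K ≤ D → Λ D ≤ l → ∀ a b, Q a x b l m D r ↔ l + m + D = a + κ ∧ m + D + r = b + x

/-- the level `(x, m, r)` is known for `l ≫ D ≫ 0` -/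
def S (x m r κ : ℕ) : Prop := ∃ (K : ℕ) (Λ : ℕ → ℕ), St x m r κ K Λ

theorem St.weaken {x m r κ K K' : ℕ} {Λ Λ' : ℕ → ℕ} (h : St x m r κ K Λ) (hK : K ≤ K')
    (hL : ∀ D, Λ D ≤ Λ' D) : St x m r κ K' Λ' :=
  fun D l hD hl => h D l (hK.trans hD) ((hL D).trans hl)

theorem mono_max (Λ : ℕ → ℕ) : ∃ Λ' : ℕ → ℕ, Monotone Λ' ∧ ∀ D, Λ D ≤ Λ' D := by
  refine ⟨fun D => ∑ i ∈ Finset.range (D + 1), Λ i, fun D D' h => ?_, fun D => ?_⟩
  · exact Finset.sum_le_sum_of_subset (Finset.range_subset_range.2 (by omega))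
  · exact Finset.single_le_sum (f := Λ) (fun _ _ => Nat.zero_le _)
      (Finset.mem_range.2 (Nat.lt_succ_self D))

theorem unif (F : Finset (ℕ × ℕ × ℕ)) (κ : ℕ → ℕ → ℕ → ℕ)
    (h : ∀ q ∈ F, S q.1 q.2.1 q.2.2 (κ q.1 q.2.1 q.2.2)) :
    ∃ (K : ℕ) (Λ : ℕ → ℕ) (km : ℕ), Monotone Λ ∧
      ∀ q ∈ F, St q.1 q.2.1 q.2.2 (κ q.1 q.2.1 q.2.2) K Λ ∧ κ q.1 q.2.1 q.2.2 ≤ km := by
  classical
  induction F using Finset.induction_on with
  | empty => exact ⟨0, fun _ => 0, 0, fun _ _ _ => le_rfl, fun q hq => absurd hq (Finset.notMem_empty q)⟩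
  | insert q F hq ih =>
    obtain ⟨K, Λ, km, hm, hF⟩ := ih fun q' hq' => h q' (Finset.mem_insert_of_mem hq')
    obtain ⟨K1, Λ1, h1⟩ := h q (Finset.mem_insert_self q F)
    obtain ⟨Λ2, hm2, h2⟩ := mono_max Λ1
    refine ⟨K + K1, fun D => Λ D + Λ2 D, km + κ q.1 q.2.1 q.2.2, fun D D' hD => ?_,
      fun q' hq' => ?_⟩
    · exact Nat.add_le_add (hm hD) (hm2 hD)
    · rcases Finset.mem_insert.1 hq' with h3 | h3
      · subst h3
        exact ⟨h1.weaken (by omega) fun D => (h2 D).trans (Nat.le_add_left _ _),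
          Nat.le_add_left _ _⟩
      · exact ⟨(hF q' h3).1.weaken (by omega) fun D => Nat.le_add_right _ _,
          (hF q' h3).2.trans (Nat.le_add_right _ _)⟩

/-- the lower levels are known with uniform monotone thresholds -/
structure Env (x m r : ℕ) (κ : ℕ → ℕ → ℕ → ℕ) (K : ℕ) (Λ : ℕ → ℕ) (km : ℕ) : Prop where
  monL : Monotone Λ
  low : ∀ x' m' r', x' ≤ x → m' ≤ m → r' ≤ r → x' + m' + r' < x + m + r →
    St x' m' r' (κ x' m' r') K Λ
  bd : ∀ x' m' r', x' ≤ x → m' ≤ m → r' ≤ r → x' + m' + r' < x + m + r → κ x' m' r' ≤ km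
  mono : ∀ x' m' m'' r', x' ≤ x → m' ≤ m → r' ≤ r → x' + m' + r' < x + m + r → m'' ≤ m' →
    κ x' m' r' ≤ κ x' m'' r'

theorem mono1 {x m r κ1 κ2 : ℕ} (h1 : S x (m + 1) r κ1) (h2 : S x m r κ2) : κ1 ≤ κ2 := by
  obtain ⟨K1, Λ1, h1⟩ := h1
  obtain ⟨K2, Λ2, h2⟩ := h2
  by_contra hcon
  push Not at hcon
  obtain ⟨D, hD⟩ : ∃ D, D = K1 + K2 + x := ⟨_, rfl⟩
  obtain ⟨l, hl⟩ : ∃ l, l = Λ1 D + Λ2 D + κ1 + κ2 := ⟨_, rfl⟩
  have e1 := (h1 D l (by omega) (by omega) (l + (m + 1) + D - κ1) (m + 1 + D + r - x)).2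
    ⟨by omega, by omega⟩
  have e2 := (h2 D (l - (κ1 - 1 - κ2)) (by omega) (by omega) (l + (m + 1) + D - κ1)
    (m + D + r - x)).2 ⟨by omega, by omega⟩
  have e3 := noQ e1 e2 (by unfold Le; omega) (by unfold Wd; omega)
  omega

theorem mono' {κ : ℕ → ℕ → ℕ → ℕ} {x m r : ℕ}
    (hS : ∀ m' ≤ m, S x m' r (κ x m' r)) : ∀ m'' ≤ m, κ x m r ≤ κ x m'' r := by
  induction m with
  | zero =>
    intro m'' h
    rw [Nat.le_zero.1 h]
  | succ m ih =>
    intro m'' h
    rcases Nat.lt_or_ge m m'' with h1 | h1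
    · rw [show m'' = m + 1 by omega]
    · exact (mono1 (hS (m + 1) le_rfl) (hS m (by omega))).trans
        (ih (fun m' hm' => hS m' (by omega)) m'' h1)

theorem env {κ : ℕ → ℕ → ℕ → ℕ} {x m r : ℕ}
    (hS : ∀ x' m' r', x' + m' + r' < x + m + r → S x' m' r' (κ x' m' r')) :
    ∃ K Λ km, Env x m r κ K Λ km := by
  classical
  obtain ⟨K, Λ, km, hm, h⟩ := unif
    (((Finset.range (x + 1)) ×ˢ ((Finset.range (m + 1)) ×ˢ (Finset.range (r + 1)))).filter
      fun q => q.1 + q.2.1 + q.2.2 < x + m + r) κ fun q hq => hS _ _ _ (Finset.mem_filter.1 hq).2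
  have hmem : ∀ x' m' r', x' ≤ x → m' ≤ m → r' ≤ r → x' + m' + r' < x + m + r →
      (x', m', r') ∈ (((Finset.range (x + 1)) ×ˢ ((Finset.range (m + 1)) ×ˢ
        (Finset.range (r + 1)))).filter fun q => q.1 + q.2.1 + q.2.2 < x + m + r) := by
    intro x' m' r' h1 h2 h3 h4
    rw [Finset.mem_filter, Finset.mem_product, Finset.mem_product, Finset.mem_range,
      Finset.mem_range, Finset.mem_range]
    exact ⟨⟨Nat.lt_succ_of_le h1, Nat.lt_succ_of_le h2, Nat.lt_succ_of_le h3⟩, h4⟩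
  refine ⟨K, Λ, km, hm, fun x' m' r' h1 h2 h3 h4 => (h _ (hmem x' m' r' h1 h2 h3 h4)).1,
    fun x' m' r' h1 h2 h3 h4 => (h _ (hmem x' m' r' h1 h2 h3 h4)).2,
    fun x' m' m'' r' h1 h2 h3 h4 h5 => ?_⟩
  exact mono' (fun m1 hm1 => hS _ _ _ (by omega)) m'' h5

section

variable {x m r K km : ℕ} {κ : ℕ → ℕ → ℕ → ℕ} {Λ : ℕ → ℕ}

theorem A1 (E : Env x m r κ K Λ km) (hx : 1 ≤ x) {a b l D : ℕ} (hD : K + x ≤ D)
    (hl : Λ D + D + x + m + r + km ≤ l) (h : Q a x b l m D r) : b + x ≤ m + D + r := by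
  by_contra hcon
  push Not at hcon
  have f4 := F4 h
  have hk := E.bd (x - 1) m r (by omega) le_rfl le_rfl (by omega)
  obtain ⟨κ', hκ⟩ : ∃ k, k = κ (x - 1) m r := ⟨_, rfl⟩
  rcases Nat.lt_or_ge (a + κ') (l + m + D) with h1 | h1
  · have e1 := (E.low (x - 1) m r (by omega) le_rfl le_rfl (by omega) D (a + κ' - m - D)
      (by omega) (by omega) a (m + D + r + 1 - x)).2 ⟨by omega, by omega⟩
    have e2 := noQ h e1 (by unfold Le; omega) (by unfold Wd; omega)
    omega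
  · have e1 := (E.low (x - 1) m r (by omega) le_rfl le_rfl (by omega) D l
      (by omega) (by omega) (l + m + D - κ') (m + D + r + 1 - x)).2 ⟨by omega, by omega⟩
    have e2 := noQ h e1 (by unfold Le; omega) (by unfold Wd; omega)
    omega

theorem A2 (E : Env x m r κ K Λ km) {a b l D : ℕ} (hD : K + m + r ≤ D)
    (hl : Λ D + D + x + m + r + km ≤ l) (h : Q a x b l m D r) : m + D + r ≤ b + x := by
  by_contra hcon
  push Not at hcon
  have f4 := F4 h
  have f3 := F3 h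
  obtain ⟨t, ht⟩ : ∃ t, t + 1 + b + x = m + D + r := ⟨m + D + r - b - x - 1, by omega⟩
  have hm := E.monL (show D - t ≤ D by omega)
  rcases Nat.eq_zero_or_pos m with h0 | h0
  · have hk := E.bd x m (r - 1) le_rfl le_rfl (by omega) (by omega)
    obtain ⟨κ', hκ⟩ : ∃ k, k = κ x m (r - 1) := ⟨_, rfl⟩
    rcases Nat.lt_or_ge (a + κ' + t) (l + m + D) with h1 | h1
    · have e1 := (E.low x m (r - 1) le_rfl le_rfl (by omega) (by omega) (D - t)
        (a + κ' + t - m - D) (by omega) (by omega) a b).2 ⟨by omega, by omega⟩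
      have e2 := noQ h e1 (by unfold Le; omega) (by unfold Wd; omega)
      omega
    · have e1 := (E.low x m (r - 1) le_rfl le_rfl (by omega) (by omega) (D - t)
        l (by omega) (by omega) (l + m + D - t - κ') b).2 ⟨by omega, by omega⟩
      have e2 := noQ h e1 (by unfold Le; omega) (by unfold Wd; omega)
      omega
  · have hk := E.bd x (m - 1) r le_rfl (by omega) le_rfl (by omega)
    obtain ⟨κ', hκ⟩ : ∃ k, k = κ x (m - 1) r := ⟨_, rfl⟩
    rcases Nat.lt_or_ge (a + κ' + t + 1) (l + m + D) with h1 | h1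
    · have e1 := (E.low x (m - 1) r le_rfl (by omega) le_rfl (by omega) (D - t)
        (a + κ' + t + 1 - m - D) (by omega) (by omega) a b).2 ⟨by omega, by omega⟩
      have e2 := noQ h e1 (by unfold Le; omega) (by unfold Wd; omega)
      omega
    · have e1 := (E.low x (m - 1) r le_rfl (by omega) le_rfl (by omega) (D - t)
        l (by omega) (by omega) (l + m + D - t - 1 - κ') b).2 ⟨by omega, by omega⟩
      have e2 := noQ h e1 (by unfold Le; omega) (by unfold Wd; omega)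
      omega

/-- `w2 = x` in the stable region -/
def A12 (x m r K : ℕ) (Λ : ℕ → ℕ) : Prop :=
  ∀ a b l D, K ≤ D → Λ D ≤ l → Q a x b l m D r → m + D + r = b + x

theorem killL (E : Env x m r κ K Λ km) {lo i j : ℕ} (hi : 1 ≤ i) (hi2 : i ≤ x) (hj : j ≤ r)
    (hij : j ≤ i) (hlo : lo = κ (x - i) m (r - j) + (i - j) + 1) {a b l m' D : ℕ} (hm : m' ≤ m)
    (hD : K + x ≤ D) (hl : Λ D + km ≤ l) (h : Q a x b l m' D r) (hw1 : l + m' + D < a + lo)
    (hw2 : m' + D + r = b + x) : False := by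
  have h1 := E.mono (x - i) m m' (r - j) (by omega) le_rfl (by omega) (by omega) hm
  have h2 := E.bd (x - i) m' (r - j) (by omega) hm (by omega) (by omega)
  have h3 := E.monL (show D - (i - j) ≤ D by omega)
  have e1 := (E.low (x - i) m' (r - j) (by omega) hm (by omega) (by omega) (D - (i - j)) l
    (by omega) (by omega) (l + m' + (D - (i - j)) - κ (x - i) m' (r - j)) b).2
    ⟨by omega, by omega⟩
  have e2 := noQ h e1 (by unfold Le; omega) (by unfold Wd; omega)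
  omega

theorem low2 (E : Env x m r κ K Λ km) (h12 : A12 x m r K Λ) {a' x' b' l' m' D' r' : ℕ}
    (hx : x' ≤ x) (hm : m' ≤ m) (hr : r' ≤ r) (hD : K ≤ D') (hl : Λ D' ≤ l')
    (hz : Q a' x' b' l' m' D' r') : m' + D' + r' = b' + x' := by
  by_cases h3 : x' + m' + r' < x + m + r
  · exact ((E.low x' m' r' hx hm hr h3 D' l' hD hl a' b').1 hz).2
  · have q1 : x' = x := by clear h12; omega
    have q2 : m' = m := by clear h12; omega
    have q3 : r' = r := by clear h12; omega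
    subst q1 q2 q3
    exact h12 a' b' l' D' hD hl hz

theorem exist1 (E : Env x m r κ K Λ km) (h12 : A12 x m r K Λ) {lo : ℕ}
    (hlo1 : ∀ i j, 1 ≤ i → i ≤ x → j ≤ r → j ≤ i → κ (x - i) m (r - j) + (i - j) < lo)
    (hlo2 : ∃ i j, 1 ≤ i ∧ i ≤ x ∧ j ≤ r ∧ j ≤ i ∧ lo = κ (x - i) m (r - j) + (i - j) + 1)
    {l D : ℕ} (hD : K + x + lo ≤ D) (hl : Λ D + km + lo ≤ l) {a0 b : ℕ}
    (ha0 : l + m + D = a0 + lo) (hb : m + D + r = b + x) :
    ∃ a ≤ a0, Q a x b l m D r := by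
  obtain ⟨i, j, hi, hi2, hj, hij, hlo⟩ := hlo2
  by_cases hg : Q a0 x b l m D r
  · exact ⟨_, le_rfl, hg⟩
  obtain ⟨a', x', b', l', m', D', r', hz, ⟨l1, l2, l3, l4, l5, l6, l7⟩, hw, hlt⟩ := exQ hg
  have f1 := F1 hz
  have f2 := F2 hz
  have hLD := E.monL l6
  have hkill : x' = x → r' = r → K + x ≤ D' → Λ D' + km ≤ l' → l' + m' + D' < a' + lo → False := by
    intro h1 h2 h3 h4 h5
    have h6 := low2 E h12 l2 l5 l7 (by omega) (by omega) hz
    subst h1 h2
    exact killL E hi hi2 hj hij hlo l5 h3 h4 hz h5 h6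
  rcases hw with hw | hw | hw | hw | hw | hw
  · obtain ⟨q1, q2, q3, q4⟩ := hw
    have h6 := low2 E h12 l2 l5 l7 (by clear hkill; omega) (by clear hkill; omega) hz
    clear hkill
    have q5 : x' = x := by omega
    have q6 : b' = b := by omega
    subst q1 q2 q3 q4 q5 q6
    exact ⟨a', l1, hz⟩
  · obtain ⟨q1, q2, q3, q4⟩ := hw
    have h6 := low2 E h12 l2 l5 l7 (by clear hkill; omega) (by clear hkill; omega) hz
    refine (hkill ?_ ?_ ?_ ?_ ?_).elim <;> (clear hkill; omega)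
  · obtain ⟨q1, q2, q3⟩ := hw
    have h6 := low2 E h12 l2 l5 l7 (by clear hkill; omega) (by clear hkill; omega) hz
    refine (hkill ?_ ?_ ?_ ?_ ?_).elim <;> (clear hkill; omega)
  · obtain ⟨q1, q2, q3⟩ := hw
    have h6 := low2 E h12 l2 l5 l7 (by clear hkill; omega) (by clear hkill; omega) hz
    refine (hkill ?_ ?_ ?_ ?_ ?_).elim <;> (clear hkill; omega)
  · obtain ⟨q1, q2, q3⟩ := hw
    have h6 := low2 E h12 l2 l5 l7 (by clear hkill; omega) (by clear hkill; omega) hz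
    clear hkill
    have q4 : m' = m := by omega
    have q5 : D' = D := by omega
    have q6 : r' = r := by omega
    subst q1 q2 q3 q4 q5 q6
    exact ⟨a', l1, hz⟩
  · obtain ⟨q1, q2, q3⟩ := hw
    have h6 := low2 E h12 l2 l5 l7 (by clear hkill; omega) (by clear hkill; omega) hz
    clear hkill
    by_cases hx : x' = x
    · have q5 : D' = D := by omega
      have q6 : r' = r := by omega
      subst q1 q2 q3 q5 q6 hx
      exact ⟨a', l1, hz⟩
    · exfalso
      have h7 := ((E.low x' m' r' l2 l5 l7 (by omega) D' l' (by omega) (by omega) a' b').1 hz).1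
      have h8 := hlo1 (x - x') (r - r') (by omega) (by omega) (by omega) (by omega)
      rw [show x - (x - x') = x' by omega, show r - (r - r') = r' by omega] at h8
      rw [q3] at h7
      omega

theorem exist (E : Env x m r κ K Λ km) (h12 : A12 x m r K Λ) (hx : 1 ≤ x) :
    ∃ lo, ∀ l D, K + x + lo ≤ D → Λ D + km + lo ≤ l →
      ∃ a ≤ l + m + D, Q a x (m + D + r - x) l m D r := by
  classical
  have hex : ∃ lo, ∀ i j, 1 ≤ i → i ≤ x → j ≤ r → j ≤ i → κ (x - i) m (r - j) + (i - j) < lo := by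
    refine ⟨km + x + 1, fun i j h1 h2 h3 h4 => ?_⟩
    have := E.bd (x - i) m (r - j) (by omega) le_rfl (by omega) (by omega)
    omega
  obtain ⟨lo, hlo1, hmin⟩ : ∃ lo, (∀ i j, 1 ≤ i → i ≤ x → j ≤ r → j ≤ i →
      κ (x - i) m (r - j) + (i - j) < lo) ∧ ∀ lo', lo' < lo →
      ¬ ∀ i j, 1 ≤ i → i ≤ x → j ≤ r → j ≤ i → κ (x - i) m (r - j) + (i - j) < lo' :=
    ⟨Nat.find hex, Nat.find_spec hex, fun lo' h => Nat.find_min hex h⟩
  refine ⟨lo, fun l D hD hl => ?_⟩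
  have h1 := hlo1 1 0 le_rfl hx (Nat.zero_le _) (Nat.zero_le _)
  have h2 := hmin (lo - 1) (by omega)
  push Not at h2
  obtain ⟨i, j, h3, h4, h5, h6, h7⟩ := h2
  have h8 := hlo1 i j h3 h4 h5 h6
  obtain ⟨a, ha, hQ⟩ := exist1 E h12 hlo1 ⟨i, j, h3, h4, h5, h6, by omega⟩ hD hl
    (a0 := l + m + D - lo) (b := m + D + r - x) (by omega) (by omega)
  exact ⟨a, by omega, hQ⟩

theorem uniq (h12 : A12 x m r K Λ) {a b a' b' l D : ℕ} (hD : K ≤ D) (hl : Λ D ≤ l)
    (h : Q a x b l m D r) (h' : Q a' x b' l m D r) : a = a' ∧ b = b' := by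
  have h1 := h12 a b l D hD hl h
  have h2 := h12 a' b' l D hD hl h'
  have h3 : b = b' := by omega
  subst h3
  refine ⟨?_, rfl⟩
  rcases Nat.lt_or_ge a a' with h4 | h4
  · have h5 := noQ h' h (by unfold Le; omega) (by unfold Wd; omega)
    omega
  · have h5 := noQ h h' (by unfold Le; omega) (by unfold Wd; omega)
    omega

theorem incX (h12 : A12 x m r K Λ) {a b a' b' l D : ℕ} (hD : K ≤ D) (hl : Λ D ≤ l)
    (h : Q a x b (l + 1) m D r) (h' : Q a' x b' l m D r) : a' < a := by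
  have h1 := h12 a b (l + 1) D hD (by omega) h
  have h2 := h12 a' b' l D hD hl h'
  have h3 : b' = b := by omega
  subst h3
  by_contra hcon
  push Not at hcon
  rcases hcon.eq_or_lt with h4 | h4
  · subst h4
    have h5 := noQ h h' (by unfold Le; omega) (by unfold Wd; omega)
    omega
  · have h5 : ¬ Q a x b' l m D r := by
      intro h5
      have h6 := noQ h' h5 (by unfold Le; omega) (by unfold Wd; omega)
      omega
    obtain ⟨a1, x1, b1, l1, m1, D1, r1, hz, ⟨j1, j2, j3, j4, j5, j6, j7⟩, hw, hlt⟩ := exQ h5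
    have c1 : a1 = a → ¬ Wd a x b' (l + 1) m D r a1 x1 b1 l1 m1 D1 r1 := by
      intro _ hw'
      have h6 := noQ h hz (by unfold Le; omega) hw'
      omega
    have c2 : ¬ Wd a' x b' l m D r a1 x1 b1 l1 m1 D1 r1 := by
      intro hw'
      have h6 := noQ h' hz (by unfold Le; omega) hw'
      omega
    rcases hw with hw | hw | hw | hw | hw | hw
    · exact c2 (Or.inl hw)
    · exact c1 hw.1 (Or.inr (Or.inl hw))
    · exact c1 hw.1 (Or.inr (Or.inr (Or.inl hw)))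
    · exact c1 hw.1 (Or.inr (Or.inr (Or.inr (Or.inl hw))))
    · exact c2 (Or.inr (Or.inr (Or.inr (Or.inr (Or.inl hw)))))
    · exact c2 (Or.inr (Or.inr (Or.inr (Or.inr (Or.inr hw)))))

/-- nonincreasing sequences of natural numbers are eventually constant -/
theorem ev_const {F : ℕ → ℕ} {l : ℕ} (h : ∀ x, l ≤ x → F (x + 1) ≤ F x) :
    ∃ l' v, l ≤ l' ∧ ∀ x, l' ≤ x → F x = v := by
  classical
  have hex : ∃ v, ∃ x, l ≤ x ∧ F x = v := ⟨F l, l, le_rfl, rfl⟩
  obtain ⟨v, ⟨l', hl', hv⟩, hmin⟩ : ∃ v, (∃ x, l ≤ x ∧ F x = v) ∧ ∀ v' < v,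
      ¬ ∃ x, l ≤ x ∧ F x = v' := ⟨Nat.find hex, Nat.find_spec hex, fun v' h => Nat.find_min hex h⟩
  have h1 : ∀ x, l' ≤ x → F x ≤ v := by
    intro x hx
    induction x, hx using Nat.le_induction with
    | base => exact hv.le
    | succ x hx ih => exact (h x (hl'.trans hx)).trans ih
  refine ⟨l', v, hl', fun x hx => le_antisymm (h1 x hx) ?_⟩
  by_contra hcon
  push Not at hcon
  exact hmin _ hcon ⟨x, hl'.trans hx, rfl⟩

theorem const (h12 : A12 x m r K Λ) {K' : ℕ} {Λ' : ℕ → ℕ}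
    (hex : ∀ l D, K' ≤ D → Λ' D ≤ l → ∃ a ≤ l + m + D, Q a x (m + D + r - x) l m D r) :
    ∃ κ', S x m r κ' := by
  classical
  have hW : ∀ D l, ∃ w, K' ≤ D → Λ' D ≤ l → w ≤ l + m + D ∧
      Q (l + m + D - w) x (m + D + r - x) l m D r := by
    intro D l
    by_cases h1 : K' ≤ D ∧ Λ' D ≤ l
    · obtain ⟨a, ha, hQ⟩ := hex l D h1.1 h1.2
      refine ⟨l + m + D - a, fun _ _ => ⟨by omega, ?_⟩⟩
      rw [show l + m + D - (l + m + D - a) = a by omega]
      exact hQ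
    · exact ⟨0, fun h2 h3 => absurd ⟨h2, h3⟩ h1⟩
  choose W hW using hW
  have hc1 : ∀ D, ∃ l' v, K + K' ≤ D → Λ D + Λ' D ≤ l' ∧ ∀ l, l' ≤ l → W D l = v := by
    intro D
    by_cases h1 : K + K' ≤ D
    · obtain ⟨l', v, h2, h3⟩ := ev_const (F := W D) (l := Λ D + Λ' D) fun l hl => by
        obtain ⟨e1, e2⟩ := hW D l (by omega) (by omega)
        obtain ⟨e3, e4⟩ := hW D (l + 1) (by omega) (by omega)
        have e5 := incX h12 (by omega) (by omega) e4 e2
        omega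
      exact ⟨l', v, fun _ => ⟨h2, h3⟩⟩
    · exact ⟨0, 0, fun h2 => absurd h2 h1⟩
  choose L w hL using hc1
  obtain ⟨K2, κ', hK2, hc2⟩ := ev_const (F := w) (l := K + K' + x) fun D hD => by
    obtain ⟨e1, e2⟩ := hL D (by omega)
    obtain ⟨e3, e4⟩ := hL (D + 1) (by omega)
    by_contra hcon
    push Not at hcon
    obtain ⟨l, hl⟩ : ∃ l, l = L D + L (D + 1) + w (D + 1) := ⟨_, rfl⟩
    have e5 := e4 l (by omega)
    obtain ⟨e6, e7⟩ := hW (D + 1) l (by omega) (by omega)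
    obtain ⟨l1, hl1⟩ : ∃ l1, l1 = l - (w (D + 1) - 1 - w D) := ⟨_, rfl⟩
    have e8 := e2 l1 (by omega)
    obtain ⟨e9, e10⟩ := hW D l1 (by omega) (by omega)
    rw [e5] at e7
    rw [e8] at e10
    have e11 := noQ e7 e10 (by unfold Le; omega) (by unfold Wd; omega)
    omega
  refine ⟨κ', K2, L, fun D l hD hl a b => ?_⟩
  obtain ⟨e1, e2⟩ := hL D (by omega)
  have e3 := hc2 D hD
  have e4 := e2 l hl
  obtain ⟨e5, e6⟩ := hW D l (by omega) (by omega)
  rw [e4, e3] at e5 e6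
  constructor
  · intro h1
    obtain ⟨e7, e8⟩ := uniq h12 (by omega) (by omega) h1 e6
    omega
  · rintro ⟨h1, h2⟩
    have e7 : a = l + m + D - κ' := by omega
    have e8 : b = m + D + r - x := by omega
    rw [e7, e8]
    exact e6

end

theorem all (N : ℕ) : ∀ x m r, x + m + r ≤ N → ∃ κ, S x m r κ := by
  classical
  induction N using Nat.strong_induction_on with
  | _ N ih =>
    intro x m r hN
    rcases Nat.eq_zero_or_pos x with hx | hx
    · subst hx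
      exact ⟨0, 0, fun _ => r, fun D l _ hl a b => base hl⟩
    obtain ⟨κ, hκ⟩ : ∃ κ : ℕ → ℕ → ℕ → ℕ, ∀ x' m' r', (∃ k, S x' m' r' k) →
        S x' m' r' (κ x' m' r') := by
      have h1 : ∀ x' m' r', ∃ k, (∃ k, S x' m' r' k) → S x' m' r' k := by
        intro x' m' r'
        by_cases h : ∃ k, S x' m' r' k
        · obtain ⟨k, hk⟩ := h
          exact ⟨k, fun _ => hk⟩
        · exact ⟨0, fun h' => absurd h' h⟩
      choose κ hκ using h1
      exact ⟨κ, hκ⟩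
    obtain ⟨K, Λ, km, E⟩ := env (x := x) (m := m) (r := r) (κ := κ) fun x' m' r' h =>
      hκ _ _ _ (ih (x' + m' + r') (by omega) x' m' r' le_rfl)
    obtain ⟨K1, hK1⟩ : ∃ K1, K1 = K + x + m + r := ⟨_, rfl⟩
    obtain ⟨Λ1, hΛ1⟩ : ∃ Λ1 : ℕ → ℕ, ∀ D, Λ1 D = Λ D + D + x + m + r + km := ⟨_, fun _ => rfl⟩
    have E1 : Env x m r κ K1 Λ1 km := by
      refine ⟨fun D D' h => ?_, fun x' m' r' h1 h2 h3 h4 => ?_, E.bd, E.mono⟩
      · rw [hΛ1, hΛ1]
        have := E.monL h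
        omega
      · exact (E.low x' m' r' h1 h2 h3 h4).weaken (by omega) fun D => by
          rw [hΛ1]
          omega
    have h12 : A12 x m r K1 Λ1 := by
      intro a b l D hD hl h
      rw [hΛ1] at hl
      exact le_antisymm (A2 E (by omega) hl h) (A1 E hx (by omega) hl h)
    obtain ⟨lo, hex⟩ := exist E1 h12 hx
    exact const h12 (K' := K1 + x + lo) (Λ' := fun D => Λ1 D + km + lo)
      fun l D hD hl => hex l D hD hl

theorem lb1 {x m r κ1 κ2 : ℕ} (h1 : S (x + 1) m r κ1) (h2 : S x m r κ2) : κ2 + 2 ≤ κ1 := by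
  obtain ⟨K1, Λ1, h1⟩ := h1
  obtain ⟨K2, Λ2, h2⟩ := h2
  by_contra hcon
  push Not at hcon
  obtain ⟨D, hD⟩ : ∃ D, D = K1 + K2 + x + 1 := ⟨_, rfl⟩
  obtain ⟨l, hl⟩ : ∃ l, l = Λ1 D + Λ2 (D - 1) + κ1 + κ2 := ⟨_, rfl⟩
  have e1 := (h1 D l (by omega) (by omega) (l + m + D - κ1) (m + D + r - (x + 1))).2
    ⟨by omega, by omega⟩
  have e2 := (h2 (D - 1) l (by omega) (by omega) (l + m + (D - 1) - κ2)
    (m + D + r - (x + 1))).2 ⟨by omega, by omega⟩
  have e3 := noQ e1 e2 (by unfold Le; omega) (by unfold Wd; omega)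
  omega

theorem lb {κ : ℕ} : ∀ {x m r : ℕ}, S x m r κ → 2 * x ≤ κ := by
  have : ∀ x : ℕ, ∀ {m r κ : ℕ}, S x m r κ → 2 * x ≤ κ := by
    intro x
    induction x with
    | zero => intro m r κ _; omega
    | succ x ih =>
      intro m r κ h
      obtain ⟨κ2, h2⟩ := all (x + m + r) x m r le_rfl
      have h3 := ih h2
      have h4 := lb1 h h2
      omega
  intro x m r h
  exact this x h

theorem no_period {T : ℕ} (hT : 1 ≤ T)
    (hinv : ∀ p : ZMod 8 → ℕ, IsP 8 4 p → IsP 8 4 fun x => p x + T) : False := by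
  obtain ⟨κ, hS⟩ := all (T + T + 2 * T) T T (2 * T) le_rfl
  have hlb := lb hS
  obtain ⟨K, Λ, hS⟩ := hS
  obtain ⟨D, hD⟩ : ∃ D, D = K + 2 * T := ⟨_, rfl⟩
  obtain ⟨l, hl⟩ : ∃ l, l = Λ D + κ + 4 * T := ⟨_, rfl⟩
  have e1 := (hS D l (by omega) (by omega) (l + T + D - κ) (T + D + 2 * T - T)).2
    ⟨by omega, by omega⟩
  have e2 := hinv _ (zeroQ (l := l - T) (m := 0) (D := D - T) (r := 2 * T) (by omega))
  have e3 : PP 8 3 (vc (l - T + 0 + (D - T) + T) T T (0 + (D - T) + 2 * T + T) (l - T + T) T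
      (D - T + T) (2 * T + T)) := by
    unfold PP
    have e4 : (fun x : ZMod 8 => vc (l - T + 0 + (D - T) + T) T T (0 + (D - T) + 2 * T + T)
        (l - T + T) T (D - T + T) (2 * T + T) x.val) = fun x : ZMod 8 =>
        vc (l - T + 0 + (D - T)) 0 0 (0 + (D - T) + 2 * T) (l - T) 0 (D - T) (2 * T) x.val + T := by
      funext x
      fin_cases x
      · rfl
      · show T = 0 + T
        omega
      · show T = 0 + T
        omega
      · rfl
      · rfl
      · show T = 0 + T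
        omega
      · rfl
      · rfl
    rw [e4]
    exact e2
  have e5 := noP 7 (by norm_num) e3 e1 (by omega) (by unfold InW; omega)
  omega

/-- No nonzero vector of nonnegative integers can be added to all P-positions of `CN(8,4)`. -/
theorem no_invariant (z : ZMod 8 → ℕ) (hz : z ≠ 0) :
    ∃ p : ZMod 8 → ℕ, IsP 8 4 p ∧ ¬ IsP 8 4 (p + z) := by
  by_contra hcon
  push Not at hcon
  refine no_period (T := ∑ a, z a) ?_ fun p hp => isP_add_trace hcon hp
  by_contra h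
  apply hz
  funext x
  have h1 : ∑ a, z a = 0 := by omega
  exact (Finset.sum_eq_zero_iff.1 h1) x (Finset.mem_univ x)

end Pool.Agent.W_30d1b9e_h8
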